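import Pool.Agent.H569_Schur.DFinal

/-!
The map induced by the derivation `x_i ↦ [x_{n+1}, x_{n+2}] x_i` on `B_4` is not injective (`n = 2`,
multidegree `(3, 2)`).
-/

set_option autoImplicit false

namespace Pool.Agent.Results.MP_540755_al.NotInjective

open Pool.Agent.H569_Schur

/-- For `n = 2`, `k = 4` and the multidegree `(3, 2)` the map `D` on `B_4(A_4)` is not injective: the
derivation `δ` of the free algebra on `x_0, x_1, x_2, x_3` with `δ x_i = [x_2, x_3] x_i` exists, and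
there is `v ∈ L_4` of multidegree `(3, 2, 0, 0)` outside `L_5` with `δ v ∈ L_5`. -/
theorem result (K : Type) [Field K] [CharZero K] :
    ∃ δ : FreeAlgebra K (Fin 4) →ₗ[K] FreeAlgebra K (Fin 4),
      (∀ a b, δ (a * b) = δ a * b + a * δ b) ∧
      (∀ i, δ (FreeAlgebra.ι K i) = (FreeAlgebra.ι K 2 * FreeAlgebra.ι K 3
        - FreeAlgebra.ι K 3 * FreeAlgebra.ι K 2) * FreeAlgebra.ι K i) ∧
      ∃ v ∈ L K 4 4 ⊓ G K 4 ![3, 2, 0, 0], v ∉ L K 4 5 ∧ δ v ∈ L K 4 5 :=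
  ⟨dl, dl_mul, dl_ι, comb vz, ⟨v_mem_L, v_mem_G⟩, v_not_mem, dv_mem⟩

end Pool.Agent.Results.MP_540755_al.NotInjective
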